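import Pool.Agent.W939.AA.Infl
set_option autoImplicit false

/-!
# Classical simulation of quantum algorithms with few rounds, preserving the number of rounds

The algorithm makes `r` rounds of queries, with `T` parallel queries in each round, to an oracle
`x : Fin N → Bool`. On most oracles it is simulated by a classical deterministic algorithm which
also makes `r` rounds of queries. For one round the bounds are quadratic in `T`.
-/

namespace Pool.Agent.Results.MP_58d537_lc.ConstantRounds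

open Pool.Agent.W939.AA

theorem result :
    -- simulation, preserving the number of rounds
    (∀ (r N T m : ℕ) (_ : 1 ≤ r) (_ : 1 ≤ T)
      (U : ℕ → Matrix.unitaryGroup (Basis N T m) ℂ) (s₀ : Basis N T m)
      (Acc : Finset (Basis N T m)) (ε δ : ℝ), 0 < ε → ε ≤ 1 → 0 < δ → δ ≤ 1 →
      ∃ g : (Fin N → Bool) → ℝ,
        RoundTree (T * (1600 * 4 ^ r * r ^ 6 * T ^ 6 / (ε ^ 2 * δ)) ^ (2 ^ r)) r g ∧
        ((Finset.univ.filter fun x => ε < |acceptProb U s₀ Acc r x - g x|).card : ℝ)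
          ≤ δ * 2 ^ N) ∧
    -- one round: simulation by one round of `4 T ^ 2 / (ε ^ 2 δ)` classical queries
    (∀ (N T m : ℕ) (_ : 1 ≤ T)
      (U : ℕ → Matrix.unitaryGroup (Basis N T m) ℂ) (s₀ : Basis N T m)
      (Acc : Finset (Basis N T m)) (ε δ : ℝ), 0 < ε → 0 < δ →
      ∃ g : (Fin N → Bool) → ℝ,
        RoundTree (4 * T ^ 2 / (ε ^ 2 * δ)) 1 g ∧
        ((Finset.univ.filter fun x => ε < |acceptProb U s₀ Acc 1 x - g x|).card : ℝ)
          ≤ δ * 2 ^ N) ∧
    -- one round: bit fixing with `8 T ^ 2 / Var` bits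
    (∀ (N T m : ℕ) (_ : 1 ≤ T)
      (U : ℕ → Matrix.unitaryGroup (Basis N T m) ℂ) (s₀ : Basis N T m)
      (Acc : Finset (Basis N T m)) (p : (Fin N → Bool) → ℝ),
      (∀ x, p x = acceptProb U s₀ Acc 1 x) → 0 < var p →
      ∃ (S : Finset (Fin N)) (a : Fin N → Bool),
        (S.card : ℝ) ≤ 8 * T ^ 2 / var p ∧
        Real.sqrt (var p / 2) ≤
          |(∑ x ∈ Finset.univ.filter (fun x : Fin N → Bool => ∀ i ∈ S, x i = a i), p x)
              / ((Finset.univ.filter (fun x : Fin N → Bool => ∀ i ∈ S, x i = a i)).card : ℝ)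
            - avg p|) := by
  refine ⟨fun r N T m hr hT U s₀ Acc ε δ h1 h2 h3 h4 => simulation r hr hT U s₀ Acc ε δ h1 h2 h3 h4,
    fun N T m hT U s₀ Acc ε δ h1 h2 => simulation_one hT U s₀ Acc ε δ h1 h2, ?_⟩
  intro N T m hT U s₀ Acc p hp hV
  have e : p = acceptProb U s₀ Acc 1 := funext hp
  subst e
  obtain ⟨S, a, h1, h2⟩ := bit_fixing_one hT U s₀ Acc hV
  refine ⟨S, a, h1, ?_⟩
  rw [subcube_avg]
  exact h2

end Pool.Agent.Results.MP_58d537_lc.ConstantRounds
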