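import Pool.Agent.W939.AA.Infl
set_option autoImplicit false

/-!
# Every quantum algorithm with large variance has, on average, a heavily queried position

The algorithm makes `r` rounds of `T` parallel queries to an oracle `x : Fin N → Bool` (`T = 1`: the
usual model with `r` queries). The variance of its acceptance probability is at most
`40 r ^ 3 T` times the average over `x` of the largest query weight of a position on `x`.
-/

namespace Pool.Agent.Results.MP_58d537_lc.HeavyPosition

open Pool.Agent.W939.AA

/-- The query weight of position `i` on the oracle `x`: the sum over the `r` rounds of the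
probability that, just before the round, a measurement finds position `i` in one of the `T` query
registers. -/
noncomputable def weight {N T m : ℕ} (U : ℕ → Matrix.unitaryGroup (Basis N T m) ℂ)
    (s₀ : Basis N T m) (r : ℕ) (x : Fin N → Bool) (i : Fin N) : ℝ :=
  ∑ j ∈ Finset.range r, ∑ s : Basis N T m, if ∃ t, s.1 t = some i then ‖state U s₀ x j s‖ ^ 2 else 0

theorem result (r N T m : ℕ) (hT : 1 ≤ T)
    (U : ℕ → Matrix.unitaryGroup (Basis N T m) ℂ) (s₀ : Basis N T m)
    (Acc : Finset (Basis N T m)) (p : (Fin N → Bool) → ℝ)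
    (hp : ∀ x, p x = acceptProb U s₀ Acc r x) :
    var p ≤ 40 * r ^ 3 * T * avg (fun x => ⨆ i : Fin N, weight U s₀ r x i) := by
  have e : p = acceptProb U s₀ Acc r := funext hp
  subst e
  have hw : ∀ x i, ∑ j ∈ Finset.range r, mass U s₀ j i x = weight U s₀ r x i := by
    intro x i
    refine Finset.sum_congr rfl fun j _ => ?_
    unfold mass
    rw [mask_norm_sq, ← state_eq]
    refine Finset.sum_congr rfl fun s _ => ?_
    by_cases hs : ∃ t, s.1 t = some i
    · rw [if_pos hs, if_pos (show Hits i s from hs)]
    · rw [if_neg hs, if_neg (show ¬ Hits i s from hs)]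
  refine (poincare _).trans ?_
  rw [← avg_sum Finset.univ (fun i x =>
    (acceptProb U s₀ Acc r x - acceptProb U s₀ Acc r (Pool.Agent.W939.AA.flip x i)) ^ 2),
    div_le_iff₀ (by norm_num)]
  have e2 : 40 * (r : ℝ) ^ 3 * T * avg (fun x => ⨆ i : Fin N, weight U s₀ r x i) * 4
      = avg (fun x => 4 * (40 * (r : ℝ) ^ 3 * T) * ⨆ i : Fin N, weight U s₀ r x i) := by
    rw [avg_mul_left]; ring
  rw [e2]
  refine avg_mono fun x => ?_
  have h0 : 0 ≤ ⨆ i : Fin N, weight U s₀ r x i := by
    refine Real.iSup_nonneg fun i => ?_
    rw [← hw]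
    exact Finset.sum_nonneg fun j _ => mass_nonneg U s₀ j i x
  have h := infl_accept hT U s₀ Acc r (40 * r ^ 3 * T) le_rfl x Finset.univ
    (⨆ i : Fin N, weight U s₀ r x i) h0 fun i _ => by
      rw [hw]
      exact le_ciSup (f := fun i : Fin N => weight U s₀ r x i) (Set.finite_range _).bddAbove i
  simpa using h

end Pool.Agent.Results.MP_58d537_lc.HeavyPosition
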