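import Pool.Agent.W920.HM.Fin

/-!
# The bit-fixing form of the Aaronson-Ambainis problem for hybrid programs with a quantum memory

A program (`Pool.Agent.W920.HM.MProg N T q r c M`) adaptively calls quantum subroutines; which one
is called next, and with which parameters, may depend arbitrarily on all outcomes seen so far.  A
quantum memory of dimension `M` is handed from call to call.  Each subroutine loads the memory,
applies `T` layers of `q` parallel phase queries interleaved with arbitrary unitaries on the whole
register (memory included), and ends with a measurement, with `c` recorded outcomes, of everything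
except the memory; every position of the oracle string is active in at most `r` of the `T` layers
of one call.
-/

set_option autoImplicit false

namespace Pool.Agent.Results.MP_58d537_lc.HybridMemory

open Finset
open scoped ComplexOrder

theorem result :
    ∀ (N T q r c M L : ℕ), 1 ≤ T → 1 ≤ q → 1 ≤ r → 1 ≤ c → 1 ≤ L →
      ∀ (P : Pool.Agent.W920.HM.MProg N T q r c M), P.calls ≤ L →
      ∀ (ρ : Matrix (Fin M) (Fin M) ℂ), ρ.PosSemidef → ρ.trace = 1 →
      ∀ (p : (Fin N → Bool) → ℝ), (∀ x, p x = (P.prob x ρ).re) →
      ∀ E Var : ℝ,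
        E = (∑ x : Fin N → Bool, p x) / 2 ^ N →
        Var = (∑ x : Fin N → Bool, (p x - E) ^ 2) / 2 ^ N →
        0 < Var →
        ∃ (S : Finset (Fin N)) (a : Fin N → Bool),
          (S.card : ℝ)
            ≤ 339738624 * (L : ℝ) ^ 5 * (c : ℝ) ^ 4 * (M : ℝ) ^ 8 * (r : ℝ) ^ 2
                * ((T : ℝ) * q) ^ 5
                * (320 * (r : ℝ) ^ 4 * (T : ℝ) ^ 2 * q) ^ (2 * r) / Var ^ 5 ∧
          Var / 4 ≤
            |(∑ x ∈ Finset.univ.filter (fun x : Fin N → Bool => ∀ i ∈ S, x i = a i), p x)
                / ((Finset.univ.filter (fun x : Fin N → Bool => ∀ i ∈ S, x i = a i)).card : ℝ)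
              - E| := by
  intro N T q r c M L hT hq hr hc hL P hP ρ hρ hρ1 p hp E Var hE hVar hVar0
  have hEE : Pool.Agent.H572R2.EE p = E := hE.symm
  obtain ⟨S, a, h1, h2⟩ := Pool.Agent.W920.HM.bitfix N T q r c M L hT hq hr hc hL P hP ρ hρ hρ1
    p hp Var hVar0 (by rw [hEE]; exact hVar)
  refine ⟨S, a, h1, ?_⟩
  rw [hEE, Pool.Agent.H572R2.ModelR.Ex_eq] at h2
  exact h2.trans (le_abs_self _)

end Pool.Agent.Results.MP_58d537_lc.HybridMemory
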