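import Pool.Agent.W920.HS.Fin

/-!
# Classical simulation, on most inputs, of hybrid programs with a quantum memory

A program (`Pool.Agent.W920.HM.MProg N T q r c M`) adaptively calls quantum subroutines; which one
is called next, and with which parameters, may depend arbitrarily on all outcomes seen so far.  A
quantum memory of dimension `M` is handed from call to call.  Each subroutine loads the memory,
applies `T` layers of `q` parallel phase queries interleaved with arbitrary unitaries on the whole
register (memory included), and ends with a measurement, with `c` recorded outcomes, of everything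
except the memory; every position of the oracle string is active in at most `r` of the `T` layers
of one call.

The acceptance probability is approximated within `ε`, on all but a fraction `δ` of the oracle
strings, by a deterministic classical decision tree (`Pool.Agent.W920.HS.DT`).
-/

set_option autoImplicit false

namespace Pool.Agent.Results.MP_58d537_lc.HybridSimulation

open Finset
open scoped ComplexOrder

theorem result :
    ∀ (N T q r c M L : ℕ), 1 ≤ T → 1 ≤ q → 1 ≤ r → 1 ≤ c → 1 ≤ L →
      ∀ (P : Pool.Agent.W920.HM.MProg N T q r c M), P.calls ≤ L →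
      ∀ (ρ : Matrix (Fin M) (Fin M) ℂ), ρ.PosSemidef → ρ.trace = 1 →
      ∀ (p : (Fin N → Bool) → ℝ), (∀ x, p x = (P.prob x ρ).re) →
      ∀ ε δ : ℝ, 0 < ε → ε ≤ 1 → 0 < δ → δ ≤ 1 →
        ∃ d : Pool.Agent.W920.HS.DT N,
          (d.depth : ℝ)
            ≤ 97844723712 * (L : ℝ) ^ 5 * (c : ℝ) ^ 4 * (M : ℝ) ^ 8 * (r : ℝ) ^ 2
                * ((T : ℝ) * q) ^ 5
                * (320 * (r : ℝ) ^ 4 * (T : ℝ) ^ 2 * q) ^ (2 * r) / (ε * δ) ^ 6 ∧
          ((Finset.univ.filter (fun x : Fin N → Bool => ε < |p x - d.ev x|)).card : ℝ)
            ≤ δ * 2 ^ N := by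
  intro N T q r c M L hT hq hr hc hL P hP ρ hρ hρ1 p hp ε δ hε hε1 hδ hδ1
  exact Pool.Agent.W920.HS.simulation N T q r c M L hT hq hr hc hL P hP ρ hρ hρ1 p hp ε δ hε hε1
    hδ hδ1

end Pool.Agent.Results.MP_58d537_lc.HybridSimulation
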